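import Pool.Agent.W425.MM.Defs2

set_option autoImplicit false

/-! Project MM, part GN2: nondegeneracy for very general coefficients. -/

namespace Pool.Agent.W692.MM

open Pool.Agent.W425.MM
open Pool.Agent.W425.SV (NP)
open Pool.Agent.W426.SM (gord IsRay face)

/-- logarithmic derivative of a monomial -/
theorem deriv_mono {F L : Type} [Field F] [Field L] [Algebra F L] (D : Derivation F L L) {N : ℕ}
    (z : Fin N → L) (hz : ∀ i, z i ≠ 0) (e : Fin N → ℕ) (s : Finset (Fin N)) :
    D (∏ i ∈ s, z i ^ e i) = (∏ i ∈ s, z i ^ e i) * ∑ i ∈ s, (e i : L) * (D (z i) / z i) := by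
  classical
  induction s using Finset.induction_on with
  | empty => simp
  | insert a s ha ih =>
    rw [Finset.prod_insert ha, Finset.sum_insert ha, Derivation.leibniz, ih,
      Derivation.leibniz_pow, smul_eq_mul, smul_eq_mul]
    have h1 : (e a • (z a ^ (e a - 1) • D (z a)) : L) = z a ^ e a * ((e a : L) * (D (z a) / z a)) := by
      rw [smul_eq_mul, nsmul_eq_mul]
      rcases Nat.eq_zero_or_pos (e a) with h | h
      · rw [h]; simp
      · obtain ⟨k, hk⟩ : ∃ k, e a = k + 1 := ⟨e a - 1, by omega⟩
        rw [hk, Nat.add_sub_cancel]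
        have := hz a
        field_simp
        ring
    rw [h1]
    ring

theorem gn2 : Pool.Agent.W425.MM.TaskGN1 → Pool.Agent.W425.MM.TaskGN2 := by
  intro hGN1 F L _ _ _ _ r q N v w c h hr hc hNP u z hz hS
  by_contra hcon
  push Not at hcon
  have : Nonempty (Fin r) := ⟨⟨0, hr⟩⟩
  obtain ⟨j0, hj0⟩ := Finite.exists_min (fun j : Fin r => ∑ i, u i * v j i)
  -- the monomials `w_l`
  have hw : ∀ l : Fin q, ∑ i, u i * v j0 i ≤ ∑ i, u i * w l i := by
    intro l
    obtain ⟨a, ha0, ha1, haw⟩ := hNP l
    have h1 : (∑ i, (u i : ℝ) * (v j0 i : ℝ)) ≤ ∑ i, (u i : ℝ) * (w l i : ℝ) := by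
      calc (∑ i, (u i : ℝ) * (v j0 i : ℝ)) = ∑ j, a j * ∑ i, (u i : ℝ) * (v j0 i : ℝ) := by
            rw [← Finset.sum_mul, ha1, one_mul]
        _ ≤ ∑ j, a j * ∑ i, (u i : ℝ) * (v j i : ℝ) := by
            apply Finset.sum_le_sum
            intro j _
            apply mul_le_mul_of_nonneg_left _ (ha0 j)
            have := hj0 j
            exact_mod_cast this
        _ = ∑ i, (u i : ℝ) * ∑ j, a j * (v j i : ℝ) := by
            simp only [Finset.mul_sum]
            rw [Finset.sum_comm]
            apply Finset.sum_congr rfl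
            intro i _
            apply Finset.sum_congr rfl
            intro j _
            ring
        _ ≤ ∑ i, (u i : ℝ) * (w l i : ℝ) := by
            apply Finset.sum_le_sum
            intro i _
            apply mul_le_mul_of_nonneg_left _ (Nat.cast_nonneg _)
            have := haw i
            simpa using this
    exact_mod_cast h1
  set m : Fin (r + q) → Fin N → ℕ := Fin.append v w with hm
  set d : Fin (r + q) → L := Fin.append c (fun l => algebraMap F L (h l)) with hd
  have hmv : ∀ j, m (Fin.castAdd q j) = v j := fun j => Fin.append_left _ _ _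
  have hmw : ∀ l, m (Fin.natAdd r l) = w l := fun l => Fin.append_right _ _ _
  have hdc : ∀ j, d (Fin.castAdd q j) = c j := fun j => Fin.append_left _ _ _
  have hdh : ∀ l, d (Fin.natAdd r l) = algebraMap F L (h l) := fun l => Fin.append_right _ _ _
  have hall : ∀ j, ∑ i, u i * v j0 i ≤ ∑ i, u i * m j i := by
    intro j
    refine Fin.addCases (fun j => ?_) (fun l => ?_) j
    · rw [hmv]; exact hj0 j
    · rw [hmw]; exact hw l
  have hface : face m u (Fin.castAdd q j0) := by
    show ∑ i, u i * m (Fin.castAdd q j0) i = gord m u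
    have : Nonempty (Fin (r + q)) := ⟨Fin.castAdd q j0⟩
    apply le_antisymm
    · rw [hmv]
      exact le_ciInf hall
    · exact ciInf_le (OrderBot.bddBelow _) (Fin.castAdd q j0)
  -- the derivation
  obtain ⟨D, hD1, hD0⟩ := hGN1 c hc j0
  have hDd : ∀ j, j ≠ Fin.castAdd q j0 → D (d j) = 0 := by
    intro j
    refine Fin.addCases (fun j => ?_) (fun l => ?_) j
    · intro hj
      rw [hdc]
      apply hD0
      intro hjj
      exact hj (by rw [hjj])
    · intro _
      rw [hdh]
      exact Derivation.map_algebraMap D _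
  set t : Fin N → L := fun i => D (z i) / z i with ht
  have hterm : ∀ j, D (if face m u j then d j * ∏ i, z i ^ m j i else 0) =
      (∑ i, t i * (if face m u j then d j * ((m j i : L) * ∏ i, z i ^ m j i) else 0)) +
        (if face m u j then (∏ i, z i ^ m j i) * D (d j) else 0) := by
    intro j
    by_cases hj : face m u j
    · simp only [if_pos hj]
      rw [Derivation.leibniz, deriv_mono D z hz, smul_eq_mul, smul_eq_mul]
      congr 1
      rw [← mul_assoc, Finset.mul_sum]
      apply Finset.sum_congr rfl
      intro i _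
      rw [ht]
      ring
    · simp only [if_neg hj]
      simp
  have h1 : D (∑ j, if face m u j then d j * ∏ i, z i ^ m j i else 0) = 0 := by
    rw [hS, map_zero]
  rw [map_sum, Finset.sum_congr rfl (fun j _ => hterm j), Finset.sum_add_distrib,
    Finset.sum_comm] at h1
  have h2 : ∑ i, ∑ j, t i * (if face m u j then d j * ((m j i : L) * ∏ i, z i ^ m j i) else 0) =
      0 := by
    apply Finset.sum_eq_zero
    intro i _
    rw [← Finset.mul_sum, hcon i, mul_zero]
  rw [h2, zero_add, Finset.sum_eq_single (Fin.castAdd q j0), if_pos hface, hdc, hD1, mul_one] at h1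
  · exact (Finset.prod_ne_zero_iff.2 (fun i _ => pow_ne_zero _ (hz i))) h1
  · intro j _ hj
    rw [hDd j hj, mul_zero, ite_self]
  · intro hn
    exact absurd (Finset.mem_univ _) hn

end Pool.Agent.W692.MM
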